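import Pool.Agent.W188.GP.Stm

/-!
# Project GP: Gaussian factors in the kernel
-/

set_option autoImplicit false

open Complex MeasureTheory Set Filter Topology

namespace Pool.Agent.W509.GP

open Pool.Agent.W188.GP

/-- the Gaussian measure of variance `2` -/
noncomputable def mu : Measure ℝ := ProbabilityTheory.gaussianReal 0 2

instance : IsProbabilityMeasure mu := by
  unfold mu
  infer_instance

theorem exp_rep (u : ℝ) : ((Real.exp (-u ^ 2) : ℝ) : ℂ) = ∫ ξ, cexp (u * ξ * I) ∂mu := by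
  rw [← charFun_apply_real]
  unfold mu
  rw [ProbabilityTheory.charFun_gaussianReal]
  push_cast
  congr 1
  ring

theorem norm_cexp_real (u ξ : ℝ) : ‖cexp (u * ξ * I)‖ = 1 := by
  have : (u : ℂ) * ξ * I = ((u * ξ : ℝ) : ℂ) * I := by push_cast; ring
  rw [this, Complex.norm_exp_ofReal_mul_I]

theorem int_of_bdd (f : ℝ → ℂ) (hf : Continuous f) (C : ℝ) (hC : ∀ ξ, ‖f ξ‖ ≤ C) :
    Integrable f mu :=
  Integrable.of_bound hf.aestronglyMeasurable C (Filter.Eventually.of_forall hC)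

theorem int_of_bdd' (f : ℝ → ℝ) (hf : Continuous f) (C : ℝ) (hC : ∀ ξ, ‖f ξ‖ ≤ C) :
    Integrable f mu :=
  Integrable.of_bound hf.aestronglyMeasurable C (Filter.Eventually.of_forall hC)

/-- the modulated sums -/
noncomputable def FF (x : ℝ) (S : Finset ℤ) (a : ℤ → ℂ) (r : ℤ → ℝ) (j : ℤ) (ξ : ℝ) : ℂ :=
  (Real.sin (Real.pi * x) : ℂ) * ∑ n ∈ S, (a n * cexp (r n * ξ * I)) / ((n : ℂ) - j - x)

theorem FF_cont (x : ℝ) (S : Finset ℤ) (a : ℤ → ℂ) (r : ℤ → ℝ) (j : ℤ) :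
    Continuous (FF x S a r j) := by
  unfold FF
  refine continuous_const.mul (continuous_finsetSum _ fun n _ => ?_)
  refine Continuous.div_const ?_ _
  fun_prop

theorem FF_bdd (x : ℝ) (S : Finset ℤ) (a : ℤ → ℂ) (r : ℤ → ℝ) (j : ℤ) (ξ : ℝ) :
    ‖FF x S a r j ξ‖ ≤ ‖(Real.sin (Real.pi * x) : ℂ)‖ *
      ∑ n ∈ S, ‖a n‖ / ‖((n : ℂ) - j - x)‖ := by
  unfold FF
  rw [norm_mul]
  refine mul_le_mul_of_nonneg_left ?_ (norm_nonneg _)
  refine (norm_sum_le _ _).trans (Finset.sum_le_sum fun n _ => ?_)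
  rw [norm_div, norm_mul, norm_cexp_real, mul_one]

theorem FF_rep (x : ℝ) (S : Finset ℤ) (a : ℤ → ℂ) (r r' : ℤ → ℝ) (j : ℤ) :
    (Real.sin (Real.pi * x) : ℂ) *
      ∑ n ∈ S, a n * (Real.exp (-(r n - r' j) ^ 2) : ℂ) / ((n : ℂ) - j - x) =
    ∫ ξ, cexp ((-(r' j) : ℝ) * ξ * I) * FF x S a r j ξ ∂mu := by
  have h1 : ∀ ξ : ℝ, cexp ((-(r' j) : ℝ) * ξ * I) * FF x S a r j ξ =
      ∑ n ∈ S, ((Real.sin (Real.pi * x) : ℂ) * a n / ((n : ℂ) - j - x)) *
        cexp ((r n - r' j : ℝ) * ξ * I) := by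
    intro ξ
    unfold FF
    rw [Finset.mul_sum, Finset.mul_sum]
    refine Finset.sum_congr rfl fun n _ => ?_
    have h2 : cexp ((r n - r' j : ℝ) * ξ * I) =
        cexp ((-(r' j) : ℝ) * ξ * I) * cexp (r n * ξ * I) := by
      rw [← Complex.exp_add]
      congr 1
      push_cast
      ring
    rw [h2]
    ring
  simp_rw [h1]
  rw [integral_finsetSum]
  · simp_rw [integral_const_mul, ← exp_rep]
    rw [Finset.mul_sum]
    refine Finset.sum_congr rfl fun n _ => ?_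
    ring
  · intro n _
    refine Integrable.const_mul (int_of_bdd _ (by fun_prop) 1 fun ξ => ?_) _
    rw [norm_cexp_real]

theorem gp_gau (hoff : StOff) : StGau := by
  intro p hp
  obtain ⟨h, hh, H⟩ := hoff p hp
  refine ⟨h, hh, fun x hx0 hx1 S S' a r r' => ?_⟩
  have hp0 : 0 ≤ p := by linarith
  -- the bound
  set C : ℤ → ℝ := fun j => ‖(Real.sin (Real.pi * x) : ℂ)‖ *
      ∑ n ∈ S, ‖a n‖ / ‖((n : ℂ) - j - x)‖ with hC
  have hCp : ∀ j, Integrable (fun ξ => ‖FF x S a r j ξ‖ ^ p) mu := by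
    intro j
    refine int_of_bdd' _ ?_ ((C j) ^ p) fun ξ => ?_
    · exact (FF_cont x S a r j).norm.rpow_const fun _ => Or.inr hp0
    · rw [Real.norm_of_nonneg (by positivity)]
      exact Real.rpow_le_rpow (norm_nonneg _) (FF_bdd x S a r j ξ) hp0
  have hC1 : ∀ j, Integrable (fun ξ => ‖FF x S a r j ξ‖) mu := by
    intro j
    refine int_of_bdd' _ (FF_cont x S a r j).norm (C j) fun ξ => ?_
    rw [norm_norm]
    exact FF_bdd x S a r j ξ
  have key : ∀ j, ‖(Real.sin (Real.pi * x) : ℂ) *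
      ∑ n ∈ S, a n * (Real.exp (-(r n - r' j) ^ 2) : ℂ) / ((n : ℂ) - j - x)‖ ^ p ≤
      ∫ ξ, ‖FF x S a r j ξ‖ ^ p ∂mu := by
    intro j
    rw [FF_rep]
    have h1 : ‖∫ ξ, cexp ((-(r' j) : ℝ) * ξ * I) * FF x S a r j ξ ∂mu‖ ≤
        ∫ ξ, ‖FF x S a r j ξ‖ ∂mu := by
      refine (norm_integral_le_integral_norm _).trans (le_of_eq ?_)
      refine integral_congr_ae (Filter.Eventually.of_forall fun ξ => ?_)
      simp only
      rw [norm_mul, norm_cexp_real, one_mul]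
    refine (Real.rpow_le_rpow (norm_nonneg _) h1 hp0).trans ?_
    have h2 := ConvexOn.map_integral_le (μ := mu) (convexOn_rpow hp.le)
      ((continuous_id.rpow_const fun _ => Or.inr hp0).continuousOn) isClosed_Ici
      (f := fun ξ => ‖FF x S a r j ξ‖)
      (Filter.Eventually.of_forall fun ξ => norm_nonneg (FF x S a r j ξ)) (hC1 j) (hCp j)
    exact h2
  calc ∑ j ∈ S', ‖(Real.sin (Real.pi * x) : ℂ) *
      ∑ n ∈ S, a n * (Real.exp (-(r n - r' j) ^ 2) : ℂ) / ((n : ℂ) - j - x)‖ ^ p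
      ≤ ∑ j ∈ S', ∫ ξ, ‖FF x S a r j ξ‖ ^ p ∂mu := Finset.sum_le_sum fun j _ => key j
    _ = ∫ ξ, ∑ j ∈ S', ‖FF x S a r j ξ‖ ^ p ∂mu := by
        rw [integral_finsetSum]
        exact fun j _ => hCp j
    _ ≤ ∫ ξ, h * ∑ n ∈ S, ‖a n‖ ^ p ∂mu := by
        refine integral_mono (integrable_finsetSum _ fun j _ => hCp j)
          (integrable_const _) fun ξ => ?_
        have h3 := H x hx0 hx1 S S' (fun n => a n * cexp (r n * ξ * I))
        refine h3.trans (le_of_eq ?_)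
        congr 1
        refine Finset.sum_congr rfl fun n _ => ?_
        rw [norm_mul, norm_cexp_real, mul_one]
    _ = h * ∑ n ∈ S, ‖a n‖ ^ p := by simp

end Pool.Agent.W509.GP
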